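import Pool.Agent.Helper54.SR.Defs

/-!
# SR-D6b: equality in `AdjoinRoot` from the values at the power series roots
-/

set_option autoImplicit false
open scoped Pointwise
open Polynomial Pool.Agent.Helper54.PW

namespace Pool.Agent.Helper54.SR

variable {k : Type} [Field k]

theorem h32_coeff_jO (p : Polynomial (PowerSeries k)) (r e : ℕ) :
    PowerSeries.coeff e (PowerSeries.coeff r (jO k p)) = PowerSeries.coeff r (p.coeff e) := by
  induction p using Polynomial.induction_on' with
  | add p q hp hq => rw [map_add, map_add, map_add, hp, hq, Polynomial.coeff_add, map_add]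
  | monomial j a =>
    have h1 : jO k (Polynomial.monomial j a) =
        PowerSeries.map (PowerSeries.C (R := k)) a * PowerSeries.C (PowerSeries.X ^ j) := by
      rw [jO, Polynomial.coe_eval₂RingHom, Polynomial.eval₂_monomial, uO, map_pow]
    rw [h1, PowerSeries.coeff_mul_C, PowerSeries.coeff_map, PowerSeries.coeff_C_mul,
      PowerSeries.coeff_X_pow, Polynomial.coeff_monomial]
    by_cases h : e = j
    · subst h
      simp
    · rw [if_neg h, if_neg (Ne.symm h), mul_zero, map_zero]

theorem h32_jO_injective : Function.Injective (jO k) := by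
  rw [injective_iff_map_eq_zero]
  intro p hp
  ext e r
  rw [← h32_coeff_jO p r e, hp]
  simp

theorem h32_iI_injective : Function.Injective (iI k) := by
  intro a b hab
  ext r : 1
  have h1 := congrArg (PowerSeries.coeff r) hab
  rw [iI, PowerSeries.coeff_map, PowerSeries.coeff_map] at h1
  exact HahnSeries.ofPowerSeries_injective (Γ := ℤ) (R := k) h1

theorem h32_jE_injective : Function.Injective (jE k) := by
  intro a b hab
  exact h32_jO_injective (h32_iI_injective hab)

theorem h32_cE_injective : Function.Injective (cE (k := k)) := by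
  intro a b hab
  exact PowerSeries.C_injective (h32_iI_injective hab)

/-- `cE` as a ring homomorphism -/
noncomputable def h32cE (k : Type) [Field k] : PowerSeries k →+* EE k :=
  (iI k).comp (PowerSeries.C (R := PowerSeries k))

theorem h32_hom : (jE k).comp (Polynomial.mapRingHom (algebraMap k (PowerSeries k))) =
    (h32cE k).comp (Polynomial.coeToPowerSeries.ringHom (R := k)) := by
  refine Polynomial.ringHom_ext (fun a => ?_) ?_
  · rw [RingHom.comp_apply, RingHom.comp_apply, Polynomial.coe_mapRingHom, Polynomial.map_C,
      Polynomial.coeToPowerSeries.ringHom_apply, Polynomial.coe_C, jE, RingHom.comp_apply, jO,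
      Polynomial.coe_eval₂RingHom, Polynomial.eval₂_C, h32cE, RingHom.comp_apply,
      PowerSeries.algebraMap_apply, Algebra.algebraMap_self_apply, PowerSeries.map_C]
  · rw [RingHom.comp_apply, RingHom.comp_apply, Polynomial.coe_mapRingHom, Polynomial.map_X,
      Polynomial.coeToPowerSeries.ringHom_apply, Polynomial.coe_X, jE, RingHom.comp_apply, jO,
      Polynomial.coe_eval₂RingHom, Polynomial.eval₂_X, h32cE, RingHom.comp_apply, uO]

/-- SR-D6b -/
theorem mk_eq_of_values {n : ℕ} (f : k[X][X]) (y : Fin n → PowerSeries k)
    (hy : Function.Injective fun i => PowerSeries.constantCoeff (y i))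
    (hfy : f.map (Polynomial.coeToPowerSeries.ringHom (R := k)) = ∏ i, (X - C (y i)))
    (A B : (PowerSeries k)[X][X])
    (h : ∀ i, (A.map (jE k)).eval (cE (y i)) = (B.map (jE k)).eval (cE (y i))) :
    AdjoinRoot.mk (fS (algebraMap k (PowerSeries k)) f) A =
      AdjoinRoot.mk (fS (algebraMap k (PowerSeries k)) f) B := by
  have hinj : Function.Injective fun i => cE (y i) := by
    intro a b hab
    exact hy (congrArg PowerSeries.constantCoeff (h32_cE_injective hab))
  set g := fS (algebraMap k (PowerSeries k)) f with hg
  have hgE : g.map (jE k) = ∏ i, (X - C (cE (y i))) := by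
    rw [hg, fS, Polynomial.map_map, h32_hom, ← Polynomial.map_map, hfy, Polynomial.map_prod]
    refine Finset.prod_congr rfl fun i _ => ?_
    rw [Polynomial.map_sub, Polynomial.map_X, Polynomial.map_C]
    rfl
  have hPm : (∏ i, (X - C (cE (y i))) : (EE k)[X]).Monic :=
    Polynomial.monic_prod_of_monic _ _ fun i _ => Polynomial.monic_X_sub_C _
  have hgm : g.Monic := by
    refine Polynomial.monic_of_injective h32_jE_injective ?_
    rw [hgE]
    exact hPm
  have hdeg : (g.map (jE k)).natDegree = n := by
    rw [hgE, Polynomial.natDegree_prod_of_monic _ _ fun i _ => Polynomial.monic_X_sub_C _]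
    simp
  rw [AdjoinRoot.mk_eq_mk, ← Polynomial.modByMonic_eq_zero_iff_dvd hgm]
  apply Polynomial.map_injective _ h32_jE_injective
  rw [Polynomial.map_zero, Polynomial.map_modByMonic _ hgm]
  set D := (A - B).map (jE k) with hD
  have hDev : ∀ i, D.eval (cE (y i)) = 0 := by
    intro i
    rw [hD, Polynomial.map_sub, Polynomial.eval_sub, h i, sub_self]
  have hGm : (g.map (jE k)).Monic := hgm.map _
  have hGev : ∀ i, (g.map (jE k)).eval (cE (y i)) = 0 := by
    intro i
    rw [hgE, Polynomial.eval_prod]
    exact Finset.prod_eq_zero (Finset.mem_univ i) (by simp)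
  have hrev : ∀ i, (D %ₘ (g.map (jE k))).eval (cE (y i)) = 0 := by
    intro i
    have h1 := Polynomial.modByMonic_add_div D (g.map (jE k))
    have h2 := congrArg (Polynomial.eval (cE (y i))) h1
    rw [Polynomial.eval_add, Polynomial.eval_mul, hGev i, zero_mul, add_zero, hDev i] at h2
    exact h2
  by_cases h0 : D %ₘ (g.map (jE k)) = 0
  · exact h0
  refine Polynomial.eq_zero_of_natDegree_lt_card_of_eval_eq_zero _ hinj hrev ?_
  rw [Fintype.card_fin]
  have h1 := Polynomial.degree_modByMonic_lt D hGm
  rw [Polynomial.degree_eq_natDegree h0, Polynomial.degree_eq_natDegree hGm.ne_zero, hdeg] at h1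
  exact_mod_cast h1

end Pool.Agent.Helper54.SR
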