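import Pool.Agent.Helper54.SR.Defs

/-!
# SR-D1: a monic polynomial over `k[X]` which splits into distinct factors at `X = 0` splits over
`k⟦X⟧`
-/

set_option autoImplicit false
open scoped Pointwise
open Polynomial Pool.Agent.Helper54.PW

namespace Pool.Agent.Helper54.SR

variable {k : Type} [Field k]

private theorem h32_mem_span {y : PowerSeries k} :
    y ∈ Ideal.span {(PowerSeries.X : PowerSeries k)} ↔ PowerSeries.constantCoeff y = 0 := by
  rw [Ideal.mem_span_singleton, PowerSeries.X_dvd_iff]

/-- SR-D1 -/
theorem hensel_split {n : ℕ} (f : k[X][X]) (hf : f.Monic) (η : Fin n → k)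
    (hη : Function.Injective η)
    (hf0 : f.map (Polynomial.evalRingHom 0) = ∏ i, (X - C (η i))) :
    ∃ y : Fin n → PowerSeries k, (∀ i, PowerSeries.constantCoeff (y i) = η i) ∧
      f.map (Polynomial.coeToPowerSeries.ringHom (R := k)) = ∏ i, (X - C (y i)) := by
  set F : (PowerSeries k)[X] := f.map (Polynomial.coeToPowerSeries.ringHom (R := k)) with hF
  have hFm : F.Monic := hf.map _
  have hcomp : (PowerSeries.constantCoeff (R := k)).comp
      (Polynomial.coeToPowerSeries.ringHom (R := k)) = Polynomial.evalRingHom 0 := by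
    refine RingHom.ext fun p => ?_
    rw [RingHom.comp_apply, Polynomial.coeToPowerSeries.ringHom_apply, Polynomial.coe_evalRingHom,
      ← Polynomial.coeff_zero_eq_eval_zero, ← PowerSeries.coeff_zero_eq_constantCoeff_apply,
      Polynomial.coeff_coe]
  have hmap : F.map (PowerSeries.constantCoeff (R := k)) = ∏ i, (X - C (η i)) := by
    rw [hF, Polynomial.map_map, hcomp, hf0]
  have hev : ∀ (G : (PowerSeries k)[X]) (a : k),
      PowerSeries.constantCoeff (G.eval (PowerSeries.C a)) =
        (G.map (PowerSeries.constantCoeff (R := k))).eval a := by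
    intro G a
    have h1 := Polynomial.eval_map_apply (p := G) (PowerSeries.constantCoeff (R := k))
      (PowerSeries.C a)
    rw [PowerSeries.constantCoeff_C] at h1
    exact h1.symm
  have hroot : ∀ i, ∃ y : PowerSeries k, F.IsRoot y ∧ PowerSeries.constantCoeff y = η i := by
    intro i
    have h1 : F.eval (PowerSeries.C (η i)) ∈ Ideal.span {(PowerSeries.X : PowerSeries k)} := by
      rw [h32_mem_span, hev, hmap, Polynomial.eval_prod]
      exact Finset.prod_eq_zero (Finset.mem_univ i) (by simp)
    have h2 : IsUnit (Ideal.Quotient.mk (Ideal.span {(PowerSeries.X : PowerSeries k)})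
        (F.derivative.eval (PowerSeries.C (η i)))) := by
      refine IsUnit.map _ ?_
      rw [PowerSeries.isUnit_iff_constantCoeff, isUnit_iff_ne_zero, hev, ← Polynomial.derivative_map,
        hmap]
      have hsep : (∏ i, (X - C (η i)) : k[X]).Separable :=
        Polynomial.separable_prod_X_sub_C_iff.2 hη
      have hr : (∏ i, (X - C (η i)) : k[X]).eval (η i) = 0 := by
        rw [Polynomial.eval_prod]
        exact Finset.prod_eq_zero (Finset.mem_univ i) (by simp)
      obtain ⟨a, b, hab⟩ := hsep
      intro h3
      have h4 := congrArg (Polynomial.eval (η i)) hab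
      rw [Polynomial.eval_add, Polynomial.eval_mul, Polynomial.eval_mul, hr, h3, mul_zero, mul_zero,
        add_zero, Polynomial.eval_one] at h4
      exact zero_ne_one h4
    obtain ⟨y, hy, hy'⟩ := HenselianRing.is_henselian
      (I := Ideal.span {(PowerSeries.X : PowerSeries k)}) F hFm (PowerSeries.C (η i)) h1 h2
    refine ⟨y, hy, ?_⟩
    rw [h32_mem_span, map_sub, PowerSeries.constantCoeff_C, sub_eq_zero] at hy'
    exact hy'
  choose y hy hy0 using hroot
  refine ⟨y, hy0, ?_⟩
  have hinj : Function.Injective y := by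
    intro a b hab
    apply hη
    rw [← hy0 a, ← hy0 b, hab]
  have hPm : (∏ i, (X - C (y i)) : (PowerSeries k)[X]).Monic :=
    Polynomial.monic_prod_of_monic _ _ fun i _ => Polynomial.monic_X_sub_C _
  have hdF : F.natDegree = n := by
    rw [← hFm.natDegree_map (PowerSeries.constantCoeff (R := k)), hmap,
      Polynomial.natDegree_prod_of_monic _ _ fun i _ => Polynomial.monic_X_sub_C _]
    simp
  have hdP : (∏ i, (X - C (y i)) : (PowerSeries k)[X]).natDegree = n := by
    rw [Polynomial.natDegree_prod_of_monic _ _ fun i _ => Polynomial.monic_X_sub_C _]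
    simp
  rw [← sub_eq_zero]
  by_cases h0 : F - ∏ i, (X - C (y i)) = 0
  · exact h0
  refine Polynomial.eq_zero_of_natDegree_lt_card_of_eval_eq_zero _ hinj (fun i => ?_) ?_
  · rw [Polynomial.eval_sub, (hy i : F.eval (y i) = 0), Polynomial.eval_prod,
      Finset.prod_eq_zero (Finset.mem_univ i) (by simp), sub_zero]
  · rw [Fintype.card_fin]
    have h1 : (F - ∏ i, (X - C (y i))).degree < F.degree := by
      refine Polynomial.degree_sub_lt ?_ hFm.ne_zero ?_
      · rw [Polynomial.degree_eq_natDegree hFm.ne_zero, Polynomial.degree_eq_natDegree hPm.ne_zero,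
          hdF, hdP]
      · rw [hFm.leadingCoeff, hPm.leadingCoeff]
    rw [Polynomial.degree_eq_natDegree h0, Polynomial.degree_eq_natDegree hFm.ne_zero, hdF] at h1
    exact_mod_cast h1

end Pool.Agent.Helper54.SR
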